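import Pool.Agent.Helper85.REC.Stmts11

/-!
# REC, part 10, rows IXB and FXF: the image of the restriction of automorphisms
[helper93]
-/

set_option autoImplicit false

open scoped Classical
open NumberField Polynomial

namespace REC

open Pool.Agent.Helper13.ZL (Pl q)
open MU

section

variable {F K : Type} [Field F] [NumberField F] [Field K] [NumberField K] [Algebra F K]
  {j : AlgebraicClosure F ≃+* AlgebraicClosure K} {r : Gal K →* Gal F}

/-- the embedding of `K` into the algebraic closure of `F` -/
noncomputable def ixbHom (hbc : IsBC F K j r) : K →ₐ[F] AlgebraicClosure F :=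
  { (j.symm : AlgebraicClosure K →+* AlgebraicClosure F).comp
      (algebraMap K (AlgebraicClosure K)) with
    commutes' := fun x => by
      show j.symm (algebraMap K (AlgebraicClosure K) (algebraMap F K x)) = _
      rw [← hbc.base, RingEquiv.symm_apply_apply] }

theorem ixbHom_apply (hbc : IsBC F K j r) (k : K) :
    ixbHom hbc k = j.symm (algebraMap K (AlgebraicClosure K) k) := rfl

theorem ixb_range (hbc : IsBC F K j r) : r.range = (ixbHom hbc).fieldRange.fixingSubgroup := by
  ext τ
  rw [IntermediateField.mem_fixingSubgroup_iff]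
  constructor
  · rintro ⟨σ, rfl⟩ x hx
    obtain ⟨k, rfl⟩ := hx
    apply j.injective
    rw [hbc.act]
    show σ (j (ixbHom hbc k)) = j (ixbHom hbc k)
    rw [ixbHom_apply, RingEquiv.apply_symm_apply, AlgEquiv.commutes]
  · intro h
    have hτ : ∀ k : K, τ (ixbHom hbc k) = ixbHom hbc k := fun k => h _ ⟨k, rfl⟩
    let σ : Gal K := AlgEquiv.ofRingEquiv (f := (j.symm.trans (τ : AlgebraicClosure F ≃+*
      AlgebraicClosure F)).trans j) (fun k => by
        show j (τ (j.symm (algebraMap K (AlgebraicClosure K) k))) = _
        have h1 := hτ k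
        rw [ixbHom_apply] at h1
        rw [h1, RingEquiv.apply_symm_apply])
    refine ⟨σ, ?_⟩
    ext x
    apply j.injective
    rw [hbc.act]
    show j (τ (j.symm (j x))) = j (τ x)
    rw [RingEquiv.symm_apply_apply]

end

theorem st_IXB : ST_IXB := by
  intro F K _ _ _ _ _ j r hbc
  have : FiniteDimensional F K := FiniteDimensional.right ℚ F K
  have : FiniteDimensional F (ixbHom hbc).fieldRange :=
    LinearMap.finiteDimensional_range (ixbHom hbc).toLinearMap
  have hopen : IsOpen (r.range : Set (Gal F)) := by
    rw [ixb_range hbc]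
    exact IntermediateField.fixingSubgroup_isOpen _
  refine ⟨hopen, ?_⟩
  have : Finite (Gal F ⧸ r.range) := Subgroup.quotient_finite_of_isOpen _ hopen
  have : r.range.FiniteIndex := Subgroup.finiteIndex_of_finite_quotient
  exact Subgroup.FiniteIndex.index_ne_zero

theorem st_FXF (hBCH : ST_BCH) : ST_FXF := by
  intro F _ _ H hH
  obtain ⟨E, hE, hN, hEH⟩ := (krullTopology_mem_nhds_one_iff_of_normal F (AlgebraicClosure F) _).1
    (hH.mem_nhds H.one_mem)
  have := hE
  have := hN
  have : NumberField E := NumberField.of_module_finite F E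
  obtain ⟨j, r, hbc⟩ := hBCH F E
  have h1 : r.range = E.fixingSubgroup := by
    rw [ixb_range hbc]
    congr 1
    exact AlgHom.fieldRange_of_normal _
  have : IsGalois F E := {}
  have : IsGalois F (AlgebraicClosure F) := {}
  refine ⟨E, inferInstance, inferInstance, inferInstance, j, r, hbc, ?_, ?_⟩
  · rw [h1]
    exact hEH
  · rw [h1]
    exact IsGalois.fixingSubgroup_normal_of_isGalois E

end REC
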