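import Pool.Agent.Helper57.REC.Stmts3

/-!
REC part 3: the Herbrand quotient of a lattice in a permutation representation.
-/

set_option autoImplicit false

open scoped Classical

namespace Pool.Agent.Helper93.REC

open _root_.REC

section count

variable {X Y : Type} [Fintype X] [Fintype Y]

/-- number of the `i < n` with `ρ ^ i x = b` -/
noncomputable def cnt (ρ : Equiv.Perm X) (n : ℕ) (x b : X) : ℕ :=
  ((Finset.range n).filter fun i => (ρ ^ i) x = b).card

omit [Fintype X] in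
theorem cnt_shift (ρ : Equiv.Perm X) (n : ℕ) (hρ : ρ ^ n = 1) (x b : X) :
    cnt ρ n x (ρ b) = cnt ρ n x b := by
  unfold cnt
  rw [Finset.card_filter, Finset.card_filter]
  have h1 : ∀ i, (if (ρ ^ i) x = b then 1 else 0) =
      (if (ρ ^ (i + 1)) x = ρ b then 1 else 0 : ℕ) := by
    intro i
    rw [pow_succ', Equiv.Perm.mul_apply, EmbeddingLike.apply_eq_iff_eq]
  rw [Finset.sum_congr rfl fun i _ => h1 i]
  have h2 := Finset.sum_range_succ (fun i => (if (ρ ^ i) x = ρ b then 1 else 0 : ℕ)) n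
  have h3 := Finset.sum_range_succ' (fun i => (if (ρ ^ i) x = ρ b then 1 else 0 : ℕ)) n
  rw [h2] at h3
  have h4 : (if (ρ ^ n) x = ρ b then 1 else 0 : ℕ) = (if (ρ ^ 0) x = ρ b then 1 else 0) := by
    rw [hρ, pow_zero]
  omega

omit [Fintype X] in
theorem cnt_pow (ρ : Equiv.Perm X) (n : ℕ) (hρ : ρ ^ n = 1) (x b : X) (k : ℕ) :
    cnt ρ n x ((ρ ^ k) b) = cnt ρ n x b := by
  induction k with
  | zero => rfl
  | succ k ih => rw [pow_succ', Equiv.Perm.mul_apply, cnt_shift ρ n hρ, ih]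

theorem sum_cnt (ρ : Equiv.Perm X) (n : ℕ) (x : X) (f : X → ℤ) :
    ∑ i ∈ Finset.range n, f ((ρ ^ i) x) = ∑ b, (cnt ρ n x b : ℤ) * f b := by
  have h1 : ∀ i ∈ Finset.range n, f ((ρ ^ i) x) = ∑ b, if (ρ ^ i) x = b then f b else 0 := by
    intro i _
    rw [Finset.sum_ite_eq]
    simp
  rw [Finset.sum_congr rfl h1, Finset.sum_comm]
  refine Finset.sum_congr rfl fun b _ => ?_
  rw [← Finset.sum_filter, Finset.sum_const, nsmul_eq_mul]
  rfl

/-- size of a fibre -/
noncomputable def fs (pr : X → Y) (y : Y) : ℕ := Nat.card {x // pr x = y}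

omit [Fintype Y] in
theorem fs_eq (pr : X → Y) (y : Y) : fs pr y = (Finset.univ.filter fun x => pr x = y).card := by
  unfold fs
  rw [Nat.card_eq_fintype_card, Fintype.card_subtype]

omit [Fintype X] [Fintype Y] in
theorem inv_pow_eq_one {π : Equiv.Perm X} {n : ℕ} (hπ : π ^ n = 1) : (π⁻¹) ^ n = 1 := by
  rw [inv_pow, hπ, inv_one]

omit [Fintype X] [Fintype Y] in
theorem pinv_apply (π : Equiv.Perm X) (x : X) : π⁻¹ (π x) = x := by
  rw [← Equiv.Perm.mul_apply, inv_mul_cancel, Equiv.Perm.one_apply]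

omit [Fintype X] [Fintype Y] in
theorem papply_inv (π : Equiv.Perm X) (x : X) : π (π⁻¹ x) = x := by
  rw [← Equiv.Perm.mul_apply, mul_inv_cancel, Equiv.Perm.one_apply]

omit [Fintype X] [Fintype Y] in
theorem inv_pow_apply (π : Equiv.Perm X) (k : ℕ) (x : X) : (π⁻¹ ^ k) ((π ^ k) x) = x := by
  rw [inv_pow, pinv_apply]

omit [Fintype X] [Fintype Y] in
theorem pow_inv_apply (π : Equiv.Perm X) (k : ℕ) (x : X) : (π ^ k) ((π⁻¹ ^ k) x) = x := by
  rw [inv_pow, papply_inv]

omit [Fintype X] [Fintype Y] in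
theorem cnt_orb {π : Equiv.Perm X} {pr : X → Y} (ho : IsOrb π pr) {n : ℕ} (hπ : π ^ n = 1)
    (x b : X) : cnt π⁻¹ n x b = if pr b = pr x then cnt π⁻¹ n x x else 0 := by
  split
  · rename_i h
    obtain ⟨k, hk⟩ := (ho.2 b x).1 h
    have h1 := cnt_pow π⁻¹ n (inv_pow_eq_one hπ) x x k
    rw [← h1, ← hk, inv_pow_apply, hk]
  · rename_i h
    unfold cnt
    rw [Finset.card_eq_zero, Finset.filter_eq_empty_iff]
    intro i _ hi
    apply h
    rw [ho.2 b x]
    exact ⟨i, by rw [← hi, pow_inv_apply]⟩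

omit [Fintype Y] in
theorem fs_mul_cnt {π : Equiv.Perm X} {pr : X → Y} (ho : IsOrb π pr) {n : ℕ} (hπ : π ^ n = 1)
    (x : X) : cnt π⁻¹ n x x * fs pr (pr x) = n := by
  have h1 := sum_cnt π⁻¹ n x (fun _ => 1)
  simp only [Finset.sum_const, Finset.card_range, mul_one, nsmul_eq_mul] at h1
  have h2 : ∑ b, (cnt π⁻¹ n x b : ℤ) = ∑ b, if pr b = pr x then (cnt π⁻¹ n x x : ℤ) else 0 := by
    refine Finset.sum_congr rfl fun b _ => ?_
    rw [cnt_orb ho hπ x b]
    split <;> simp
  rw [h2, ← Finset.sum_filter, Finset.sum_const, nsmul_eq_mul, ← fs_eq] at h1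
  have h3 : ((n : ℕ) : ℤ) = ((fs pr (pr x) * cnt π⁻¹ n x x : ℕ) : ℤ) := by
    push_cast
    exact h1
  have h4 : n = fs pr (pr x) * cnt π⁻¹ n x x := by exact_mod_cast h3
  rw [mul_comm]
  exact h4.symm

/-- the quotient `n / m_y` -/
noncomputable def cy (pr : X → Y) (n : ℕ) (y : Y) : ℕ := n / fs pr y

omit [Fintype Y] in
theorem fs_pos {π : Equiv.Perm X} {pr : X → Y} (ho : IsOrb π pr) (y : Y) : 0 < fs pr y := by
  obtain ⟨x, hx⟩ := ho.1 y
  rw [fs_eq, Finset.card_pos]
  exact ⟨x, by simp [hx]⟩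

omit [Fintype Y] in
theorem cy_eq {π : Equiv.Perm X} {pr : X → Y} (ho : IsOrb π pr) {n : ℕ} (hπ : π ^ n = 1)
    (x : X) : cy pr n (pr x) = cnt π⁻¹ n x x := by
  unfold cy
  have h1 := fs_mul_cnt ho hπ x
  exact Nat.div_eq_of_eq_mul_left (fs_pos ho _) h1.symm

omit [Fintype Y] in
theorem cy_pos {π : Equiv.Perm X} {pr : X → Y} (ho : IsOrb π pr) {n : ℕ} (hn : 0 < n)
    (hπ : π ^ n = 1) (y : Y) : 0 < cy pr n y := by
  obtain ⟨x, rfl⟩ := ho.1 y
  rw [cy_eq ho hπ x]
  rcases Nat.eq_zero_or_pos (cnt π⁻¹ n x x) with h | h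
  · have h1 := fs_mul_cnt ho hπ x
    rw [h, zero_mul] at h1
    omega
  · exact h

/-- sum over a fibre -/
noncomputable def fsum (pr : X → Y) (f : X → ℤ) (y : Y) : ℤ :=
  ∑ b ∈ Finset.univ.filter (fun b => pr b = y), f b

omit [Fintype Y] in
theorem sum_orb {π : Equiv.Perm X} {pr : X → Y} (ho : IsOrb π pr) {n : ℕ} (hπ : π ^ n = 1)
    (x : X) (f : X → ℤ) :
    ∑ i ∈ Finset.range n, f ((π⁻¹ ^ i) x) = (cy pr n (pr x) : ℤ) * fsum pr f (pr x) := by
  rw [sum_cnt, fsum, cy_eq ho hπ, Finset.mul_sum, Finset.sum_filter]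
  refine Finset.sum_congr rfl fun b _ => ?_
  rw [cnt_orb ho hπ x b]
  split <;> simp

end count

section model

variable {X : Type}

/-- the automorphism of the permutation lattice -/
def s0 (π : Equiv.Perm X) : MulAut (Multiplicative (X → ℤ)) where
  toFun f := Multiplicative.ofAdd fun x => Multiplicative.toAdd f (π⁻¹ x)
  invFun f := Multiplicative.ofAdd fun x => Multiplicative.toAdd f (π x)
  left_inv f := by
    apply Multiplicative.toAdd.injective
    funext x
    simp
  right_inv f := by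
    apply Multiplicative.toAdd.injective
    funext x
    simp
  map_mul' f g := by
    apply Multiplicative.toAdd.injective
    funext x
    simp

theorem s0_apply (π : Equiv.Perm X) (f : Multiplicative (X → ℤ)) (x : X) :
    Multiplicative.toAdd (s0 π f) x = Multiplicative.toAdd f (π⁻¹ x) := rfl

theorem s0_pow (π : Equiv.Perm X) (i : ℕ) (f : Multiplicative (X → ℤ)) (x : X) :
    Multiplicative.toAdd ((s0 π ^ i) f) x = Multiplicative.toAdd f ((π⁻¹ ^ i) x) := by
  induction i generalizing f x with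
  | zero => rfl
  | succ i ih =>
    rw [pow_succ, MulAut.mul_apply, ih, s0_apply, pow_succ', Equiv.Perm.mul_apply]

theorem s0_pow_eq_one {π : Equiv.Perm X} {n : ℕ} (hπ : π ^ n = 1) : s0 π ^ n = 1 := by
  apply MulEquiv.ext
  intro f
  apply Multiplicative.toAdd.injective
  funext x
  rw [s0_pow, inv_pow, hπ]
  rfl

theorem nm_apply {A : Type} [CommGroup A] (s : MulAut A) (n : ℕ) (a : A) :
    nm s n a = ∏ i ∈ Finset.range n, (s ^ i) a := by
  unfold nm
  rw [MonoidHom.finsetProd_apply]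
  rfl

theorem dd_apply {A : Type} [CommGroup A] (s : MulAut A) (a : A) : dd s a = s a / a := rfl

theorem nm_s0 (π : Equiv.Perm X) (n : ℕ) (f : Multiplicative (X → ℤ)) (x : X) :
    Multiplicative.toAdd (nm (s0 π) n f) x =
      ∑ i ∈ Finset.range n, Multiplicative.toAdd f ((π⁻¹ ^ i) x) := by
  rw [nm_apply]
  induction n with
  | zero => simp
  | succ n ih =>
    rw [Finset.prod_range_succ, Finset.sum_range_succ, ← ih, ← s0_pow π n f x]
    rfl

theorem dd_s0 (π : Equiv.Perm X) (f : Multiplicative (X → ℤ)) (x : X) :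
    Multiplicative.toAdd (dd (s0 π) f) x =
      Multiplicative.toAdd f (π⁻¹ x) - Multiplicative.toAdd f x := rfl

theorem mem_ker_dd (π : Equiv.Perm X) (f : Multiplicative (X → ℤ)) :
    f ∈ (dd (s0 π)).ker ↔ ∀ x, Multiplicative.toAdd f (π⁻¹ x) = Multiplicative.toAdd f x := by
  rw [MonoidHom.mem_ker]
  constructor
  · intro h x
    have h1 := dd_s0 π f x
    rw [h] at h1
    have h2 : (0 : ℤ) = Multiplicative.toAdd f (π⁻¹ x) - Multiplicative.toAdd f x := h1
    omega
  · intro h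
    apply Multiplicative.toAdd.injective
    funext x
    rw [dd_s0, h x, sub_self]
    rfl

theorem ker_dd_const {Y : Type} {π : Equiv.Perm X} {pr : X → Y} (ho : IsOrb π pr)
    {f : Multiplicative (X → ℤ)} (hf : f ∈ (dd (s0 π)).ker) {x x' : X} (h : pr x = pr x') :
    Multiplicative.toAdd f x = Multiplicative.toAdd f x' := by
  rw [mem_ker_dd] at hf
  obtain ⟨k, hk⟩ := (ho.2 x x').1 h
  rw [← hk]
  clear hk h x'
  induction k with
  | zero => rfl
  | succ k ih =>
    rw [ih, pow_succ', Equiv.Perm.mul_apply, ← hf (π ((π ^ k) x)), pinv_apply]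

variable {Y : Type} [Fintype X] [Fintype Y]

omit [Fintype Y] in
theorem nm_s0' {π : Equiv.Perm X} {pr : X → Y} (ho : IsOrb π pr) {n : ℕ} (hπ : π ^ n = 1)
    (f : Multiplicative (X → ℤ)) (x : X) :
    Multiplicative.toAdd (nm (s0 π) n f) x =
      (cy pr n (pr x) : ℤ) * fsum pr (Multiplicative.toAdd f) (pr x) := by
  rw [nm_s0, sum_orb ho hπ]

omit [Fintype X] [Fintype Y] in
theorem pr_inv {π : Equiv.Perm X} {pr : X → Y} (ho : IsOrb π pr) (x : X) :
    pr (π⁻¹ x) = pr x := by
  rw [ho.2]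
  exact ⟨1, by simp⟩

/-- reduction of the values at base points -/
noncomputable def ph0 (pr : X → Y) (n : ℕ) (x0 : Y → X) :
    Multiplicative (X → ℤ) →* Multiplicative (∀ y : Y, ZMod (cy pr n y)) where
  toFun f := Multiplicative.ofAdd fun y => ((Multiplicative.toAdd f (x0 y) : ℤ) : ZMod (cy pr n y))
  map_one' := by
    apply Multiplicative.toAdd.injective
    funext y
    simp
  map_mul' f g := by
    apply Multiplicative.toAdd.injective
    funext y
    simp

omit [Fintype Y] in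
theorem ker_ph0 {π : Equiv.Perm X} {pr : X → Y} (ho : IsOrb π pr) {n : ℕ} (hπ : π ^ n = 1)
    {x0 : Y → X} (hx0 : ∀ y, pr (x0 y) = y) :
    (ph0 pr n x0).ker ⊓ (dd (s0 π)).ker = (nm (s0 π) n).range := by
  ext f
  constructor
  · rintro ⟨h1, h2⟩
    have h3 : ∀ y, ∃ g : ℤ, Multiplicative.toAdd f (x0 y) = (cy pr n y : ℤ) * g := by
      intro y
      have h4 : Multiplicative.toAdd (ph0 pr n x0 f) y = 0 := by
        have h5 : ph0 pr n x0 f = 1 := h1
        rw [h5]
        rfl
      have h5 : ((Multiplicative.toAdd f (x0 y) : ℤ) : ZMod (cy pr n y)) = 0 := h4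
      rw [ZMod.intCast_zmod_eq_zero_iff_dvd] at h5
      exact h5
    choose g hg using h3
    refine ⟨Multiplicative.ofAdd fun x => if x = x0 (pr x) then g (pr x) else 0, ?_⟩
    apply Multiplicative.toAdd.injective
    funext x
    rw [nm_s0' ho hπ]
    have h4 : fsum pr (Multiplicative.toAdd (Multiplicative.ofAdd
        fun x => if x = x0 (pr x) then g (pr x) else 0)) (pr x) = g (pr x) := by
      unfold fsum
      rw [Finset.sum_eq_single (x0 (pr x))]
      · simp [hx0]
      · intro b hb hne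
        simp only [Finset.mem_filter, Finset.mem_univ, true_and] at hb
        simp [hb, hne]
      · intro h
        exact absurd (by simp [hx0]) h
    rw [h4, ← hg]
    exact ker_dd_const ho h2 (hx0 _)
  · rintro ⟨g, rfl⟩
    constructor
    · change ph0 pr n x0 (nm (s0 π) n g) = 1
      apply Multiplicative.toAdd.injective
      funext y
      change ((Multiplicative.toAdd (nm (s0 π) n g) (x0 y) : ℤ) : ZMod (cy pr n y)) = 0
      rw [nm_s0' ho hπ, hx0]
      simp
    · change nm (s0 π) n g ∈ (dd (s0 π)).ker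
      rw [mem_ker_dd]
      intro x
      rw [nm_s0' ho hπ, nm_s0' ho hπ, pr_inv ho]

theorem h0_s0 {π : Equiv.Perm X} {pr : X → Y} (ho : IsOrb π pr) {n : ℕ}
    (hπ : π ^ n = 1) : h0 (s0 π) n = ∏ y : Y, n / Nat.card {x // pr x = y} := by
  obtain ⟨x0, hx0⟩ : ∃ x0 : Y → X, ∀ y, pr (x0 y) = y :=
    ⟨Function.surjInv ho.1, Function.surjInv_eq ho.1⟩
  unfold h0
  rw [← ker_ph0 ho hπ hx0, Subgroup.inf_relIndex_right, Subgroup.relIndex_ker]
  have h1 : (dd (s0 π)).ker.map (ph0 pr n x0) = ⊤ := by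
    rw [eq_top_iff]
    intro h _
    have h2 : ∀ y, ∃ g : ℤ, (g : ZMod (cy pr n y)) = Multiplicative.toAdd h y := fun y =>
      ZMod.intCast_surjective _
    choose g hg using h2
    refine ⟨Multiplicative.ofAdd fun x => g (pr x), ?_, ?_⟩
    · change _ ∈ (dd (s0 π)).ker
      rw [mem_ker_dd]
      intro x
      change g (pr (π⁻¹ x)) = g (pr x)
      rw [pr_inv ho]
    · apply Multiplicative.toAdd.injective
      funext y
      change ((g (pr (x0 y)) : ℤ) : ZMod (cy pr n y)) = _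
      rw [hx0, hg]
  rw [h1, Subgroup.card_top]
  have h2 : Nat.card (Multiplicative (∀ y : Y, ZMod (cy pr n y))) =
      Nat.card (∀ y : Y, ZMod (cy pr n y)) := rfl
  rw [h2, Nat.card_pi]
  refine Finset.prod_congr rfl fun y _ => ?_
  rw [Nat.card_zmod]
  rfl

/-- additive form of `dd` -/
def EE (π : Equiv.Perm X) : (X → ℤ) →+ (X → ℤ) where
  toFun g := fun x => g (π⁻¹ x) - g x
  map_zero' := by funext x; simp
  map_add' f g := by funext x; simp; ring

omit [Fintype X] in
theorem single_step (π : Equiv.Perm X) (z : X) :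
    (Pi.single (π z) (1 : ℤ) : X → ℤ) - Pi.single z 1 ∈ (EE π).range := by
  refine ⟨Pi.single z 1, ?_⟩
  funext x
  change (Pi.single z (1 : ℤ) : X → ℤ) (π⁻¹ x) - (Pi.single z (1 : ℤ) : X → ℤ) x = _
  rw [Pi.sub_apply]
  congr 1
  rw [Pi.single_apply, Pi.single_apply]
  refine if_congr ?_ rfl rfl
  rw [Equiv.Perm.inv_eq_iff_eq]

omit [Fintype X] in
theorem single_pow (π : Equiv.Perm X) (z : X) (k : ℕ) :
    (Pi.single ((π ^ k) z) (1 : ℤ) : X → ℤ) - Pi.single z 1 ∈ (EE π).range := by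
  induction k with
  | zero =>
    have : (Pi.single ((π ^ 0) z) (1 : ℤ) : X → ℤ) - Pi.single z 1 = 0 := by simp
    rw [this]
    exact zero_mem _
  | succ k ih =>
    have h1 := single_step π ((π ^ k) z)
    have h2 := add_mem h1 ih
    rw [sub_add_sub_cancel] at h2
    rw [pow_succ', Equiv.Perm.mul_apply]
    exact h2

omit [Fintype Y] in
theorem h1_s0 {π : Equiv.Perm X} {pr : X → Y} (ho : IsOrb π pr) {n : ℕ} (hn : 0 < n)
    (hπ : π ^ n = 1) : h1 (s0 π) n = 1 := by
  obtain ⟨x0, hx0⟩ : ∃ x0 : Y → X, ∀ y, pr (x0 y) = y :=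
    ⟨Function.surjInv ho.1, Function.surjInv_eq ho.1⟩
  unfold h1
  rw [Subgroup.relIndex_eq_one]
  intro f hf
  have h2 : ∀ y, fsum pr (Multiplicative.toAdd f) y = 0 := by
    intro y
    have h3 := nm_s0' ho hπ f (x0 y)
    rw [MonoidHom.mem_ker] at hf
    rw [hf, hx0] at h3
    have h4 : (0 : ℤ) = (cy pr n y : ℤ) * fsum pr (Multiplicative.toAdd f) y := h3
    have h5 := cy_pos ho hn hπ y
    rcases mul_eq_zero.1 h4.symm with h | h
    · exfalso
      have : cy pr n y = 0 := by exact_mod_cast h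
      omega
    · exact h
  have h3 : (Multiplicative.toAdd f : X → ℤ) = ∑ x, (Multiplicative.toAdd f x) •
      ((Pi.single x (1 : ℤ) : X → ℤ) - Pi.single (x0 (pr x)) 1) := by
    funext z
    rw [Finset.sum_apply]
    simp only [Pi.smul_apply, Pi.sub_apply, smul_eq_mul, mul_sub, Finset.sum_sub_distrib]
    have h4 : ∑ x, Multiplicative.toAdd f x * (Pi.single x (1 : ℤ) : X → ℤ) z =
        Multiplicative.toAdd f z := by
      rw [Finset.sum_eq_single z]
      · simp
      · intro b _ hb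
        rw [Pi.single_apply, if_neg (Ne.symm hb), mul_zero]
      · intro h
        exact absurd (Finset.mem_univ _) h
    have h5 : ∑ x, Multiplicative.toAdd f x * (Pi.single (x0 (pr x)) (1 : ℤ) : X → ℤ) z = 0 := by
      by_cases hz : x0 (pr z) = z
      · have h6 := h2 (pr z)
        unfold fsum at h6
        rw [Finset.sum_filter] at h6
        rw [← h6]
        refine Finset.sum_congr rfl fun x _ => ?_
        rw [Pi.single_apply]
        by_cases hx : pr x = pr z
        · rw [if_pos hx, hx, if_pos hz.symm, mul_one]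
        · rw [if_neg hx, if_neg, mul_zero]
          intro h
          apply hx
          rw [h, hx0]
      · refine Finset.sum_eq_zero fun x _ => ?_
        rw [Pi.single_apply, if_neg, mul_zero]
        intro h
        apply hz
        have : pr z = pr x := by rw [h, hx0]
        rw [this, ← h]
    rw [h4, h5, sub_zero]
  have h4 : (Multiplicative.toAdd f : X → ℤ) ∈ (EE π).range := by
    rw [h3]
    refine sum_mem fun x _ => zsmul_mem ?_ _
    obtain ⟨k, hk⟩ := (ho.2 (x0 (pr x)) x).1 (hx0 _)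
    have h5 := single_pow π (x0 (pr x)) k
    rwa [hk] at h5
  obtain ⟨g, hg⟩ := h4
  refine ⟨Multiplicative.ofAdd g, ?_⟩
  apply Multiplicative.toAdd.injective
  rw [← hg]
  rfl

/-- the embedding of the permutation lattice -/
noncomputable def l0 (f : Multiplicative (X → ℤ)) : X → ℝ := fun x =>
  ((Multiplicative.toAdd f x : ℤ) : ℝ)

theorem isLat_l0 : IsLat (Multiplicative (X → ℤ)) (X → ℝ) (l0 (X := X)) where
  mul a b := by
    funext x
    simp [l0]
  fin R := by
    have h1 : (Set.Icc (fun _ : X => -⌈R⌉) (fun _ : X => ⌈R⌉)).Finite := Set.finite_Icc _ _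
    refine (h1.preimage (f := (Multiplicative.toAdd : Multiplicative (X → ℤ) → (X → ℤ)))
      (Multiplicative.toAdd.injective.injOn)).subset ?_
    intro f hf
    simp only [Set.mem_ofPred_eq] at hf
    have h2 : ∀ x, |((Multiplicative.toAdd f x : ℤ) : ℝ)| ≤ R := by
      intro x
      have := norm_le_pi_norm (l0 f) x
      exact (this.trans hf)
    refine ⟨?_, ?_⟩
    · intro x
      have h3 := (abs_le.1 (h2 x)).1
      have h4 : (-⌈R⌉ : ℤ) ≤ Multiplicative.toAdd f x := by
        have h5 := Int.le_ceil R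
        have h6 : ((-⌈R⌉ : ℤ) : ℝ) ≤ ((Multiplicative.toAdd f x : ℤ) : ℝ) := by
          push_cast
          linarith
        exact_mod_cast h6
      exact h4
    · intro x
      have h3 := (abs_le.1 (h2 x)).2
      have h4 : Multiplicative.toAdd f x ≤ ⌈R⌉ := by
        have h5 := Int.le_ceil R
        have h6 : ((Multiplicative.toAdd f x : ℤ) : ℝ) ≤ ((⌈R⌉ : ℤ) : ℝ) := by linarith
        exact_mod_cast h6
      exact h4
  span := by
    rw [eq_top_iff, ← (Pi.basisFun ℝ X).span_eq]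
    apply Submodule.span_mono
    rintro _ ⟨x, rfl⟩
    refine ⟨Multiplicative.ofAdd (Pi.single x 1), ?_⟩
    funext z
    simp only [l0, toAdd_ofAdd, Pi.basisFun_apply, Pi.single_apply]
    split <;> simp

/-- the action on the real representation -/
def TT (π : Equiv.Perm X) : Module.End ℝ (X → ℝ) where
  toFun f := fun x => f (π⁻¹ x)
  map_add' f g := rfl
  map_smul' c f := rfl

omit [Fintype X] in
theorem TT_pow (π : Equiv.Perm X) (i : ℕ) (f : X → ℝ) (x : X) :
    (TT π ^ i) f x = f ((π⁻¹ ^ i) x) := by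
  induction i generalizing f x with
  | zero => rfl
  | succ i ih =>
    rw [pow_succ, Module.End.mul_apply, ih, pow_succ', Equiv.Perm.mul_apply]
    rfl

omit [Fintype X] in
theorem TT_pow_eq_one {π : Equiv.Perm X} {n : ℕ} (hπ : π ^ n = 1) : TT π ^ n = 1 := by
  apply LinearMap.ext
  intro f
  funext x
  rw [TT_pow, inv_pow, hπ]
  rfl

end model

theorem st_HERB : ST_HEV → ST_HERB := by
  intro hEV A _ X Y _ _ π pr ℓ s n hn hs hπ ho hl hlat
  obtain ⟨δ, hδ, h⟩ := hEV (X → ℝ) (TT π) n hn (TT_pow_eq_one hπ)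
  have h1 := h A ℓ s hlat hs (by
    intro a
    funext x
    change ℓ (s a) x = ℓ a (π⁻¹ x)
    rw [← hl a (π⁻¹ x), papply_inv])
  have h2 := h (Multiplicative (X → ℤ)) l0 (s0 π) isLat_l0 (s0_pow_eq_one hπ) (by
    intro a
    rfl)
  obtain ⟨h3, h4, h5⟩ := h1
  obtain ⟨-, -, h6⟩ := h2
  refine ⟨h3, h4, ?_⟩
  rw [h1_s0 ho hn hπ, h0_s0 ho hπ, Nat.cast_one] at h6
  have h7 : ((h0 s n : ℕ) : ℝ) =
      (((∏ y : Y, n / Nat.card {x // pr x = y}) * h1 s n : ℕ) : ℝ) := by
    rw [Nat.cast_mul, ← h5]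
    have h8 : ((∏ y : Y, n / Nat.card {x // pr x = y} : ℕ) : ℝ) * ((h0 s n : ℝ) * δ) =
        (((∏ y : Y, n / Nat.card {x // pr x = y} : ℕ) : ℝ) * δ) * (h0 s n : ℝ) := by ring
    rw [h8, h6, one_mul]
  exact_mod_cast h7

end Pool.Agent.Helper93.REC
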