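import Pool.Agent.Helper57.REC.Stmts3

/-!
REC part 3: the Herbrand quotient of a lattice in the hyperplane of the vectors of sum zero.
-/

set_option autoImplicit false

open scoped Classical

namespace Pool.Agent.Helper93.REC.HES

open _root_.REC

section prod

variable {G G' : Type} [CommGroup G] [CommGroup G']

theorem relIndex_prod' (H K : Subgroup G) (H' K' : Subgroup G') :
    (H.prod H').relIndex (K.prod K') = H.relIndex K * H'.relIndex K' := by
  unfold Subgroup.relIndex
  rw [← Subgroup.index_prod]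
  have h1 : (H.prod H').subgroupOf (K.prod K') =
      ((H.subgroupOf K).prod (H'.subgroupOf K')).comap
        ((Subgroup.prodEquiv K K') : K.prod K' →* K × K') := by
    ext x
    rfl
  rw [h1, Subgroup.index_comap_of_surjective _ (Subgroup.prodEquiv K K').surjective]

/-- the product automorphism, trivial on the second factor -/
def sp (s : MulAut G) : MulAut (G × G') where
  toFun a := (s a.1, a.2)
  invFun a := (s⁻¹ a.1, a.2)
  left_inv a := by
    ext1
    · change (s⁻¹ * s) a.1 = a.1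
      rw [inv_mul_cancel]
      rfl
    · rfl
  right_inv a := by
    ext1
    · change (s * s⁻¹) a.1 = a.1
      rw [mul_inv_cancel]
      rfl
    · rfl
  map_mul' a b := by
    ext1
    · exact map_mul s a.1 b.1
    · rfl

theorem sp_pow (s : MulAut G) (i : ℕ) (a : G × G') :
    (sp (G' := G') s ^ i) a = ((s ^ i) a.1, a.2) := by
  induction i generalizing a with
  | zero => rfl
  | succ i ih =>
    rw [pow_succ, MulAut.mul_apply, ih, pow_succ, MulAut.mul_apply]
    rfl

theorem nm_apply {A : Type} [CommGroup A] (s : MulAut A) (n : ℕ) (a : A) :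
    nm s n a = ∏ i ∈ Finset.range n, (s ^ i) a := by
  unfold nm
  rw [MonoidHom.finsetProd_apply]
  rfl

theorem nm_sp (s : MulAut G) (n : ℕ) (a : G × G') :
    nm (sp (G' := G') s) n a = (nm s n a.1, a.2 ^ n) := by
  rw [nm_apply, nm_apply]
  induction n with
  | zero =>
    rw [Finset.prod_range_zero, Finset.prod_range_zero, pow_zero]
    rfl
  | succ n ih =>
    rw [Finset.prod_range_succ, ih, Finset.prod_range_succ, sp_pow, pow_succ]
    rfl

theorem dd_sp (s : MulAut G) (a : G × G') : dd (sp (G' := G') s) a = (dd s a.1, 1) := by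
  change (s a.1 / a.1, a.2 / a.2) = _
  rw [div_self']
  rfl

theorem range_nm (s : MulAut G) (n : ℕ) :
    (nm (sp (G' := G') s) n).range = (nm s n).range.prod (powMonoidHom n : G' →* G').range := by
  ext x
  constructor
  · rintro ⟨a, rfl⟩
    rw [nm_sp]
    exact ⟨⟨a.1, rfl⟩, ⟨a.2, rfl⟩⟩
  · rintro ⟨⟨a, ha⟩, ⟨b, hb⟩⟩
    refine ⟨(a, b), ?_⟩
    rw [nm_sp]
    exact Prod.ext ha hb

theorem ker_nm (s : MulAut G) (n : ℕ) :
    (nm (sp (G' := G') s) n).ker = (nm s n).ker.prod (powMonoidHom n : G' →* G').ker := by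
  ext x
  rw [MonoidHom.mem_ker, nm_sp, Subgroup.mem_prod, MonoidHom.mem_ker, MonoidHom.mem_ker,
    Prod.ext_iff]
  rfl

theorem range_dd (s : MulAut G) :
    (dd (sp (G' := G') s)).range = (dd s).range.prod (⊥ : Subgroup G') := by
  ext x
  constructor
  · rintro ⟨a, rfl⟩
    rw [dd_sp]
    exact ⟨⟨a.1, rfl⟩, rfl⟩
  · rintro ⟨⟨a, ha⟩, hb⟩
    refine ⟨(a, 1), ?_⟩
    rw [dd_sp]
    exact Prod.ext ha (Subgroup.mem_bot.1 hb).symm

theorem ker_dd (s : MulAut G) :
    (dd (sp (G' := G') s)).ker = (dd s).ker.prod (⊤ : Subgroup G') := by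
  ext x
  rw [MonoidHom.mem_ker, dd_sp, Subgroup.mem_prod, MonoidHom.mem_ker, Prod.ext_iff]
  simp

end prod

theorem index_pow (n : ℕ) :
    (powMonoidHom n : Multiplicative ℤ →* Multiplicative ℤ).range.index = n := by
  have h1 : (powMonoidHom n : Multiplicative ℤ →* Multiplicative ℤ).range =
      AddSubgroup.toSubgroup (AddSubgroup.zmultiples (n : ℤ)) := by
    ext x
    constructor
    · rintro ⟨a, rfl⟩
      refine ⟨Multiplicative.toAdd a, ?_⟩
      change Multiplicative.toAdd a • (n : ℤ) = n • Multiplicative.toAdd a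
      simp [mul_comm]
    · rintro ⟨a, ha⟩
      refine ⟨Multiplicative.ofAdd a, ?_⟩
      apply Multiplicative.toAdd.injective
      rw [← ha]
      change n • a = a • (n : ℤ)
      simp [mul_comm]
  rw [h1, AddSubgroup.index_toSubgroup, Int.index_zmultiples]
  simp

theorem ker_pow (n : ℕ) (hn : 0 < n) :
    (powMonoidHom n : Multiplicative ℤ →* Multiplicative ℤ).ker = ⊥ := by
  rw [eq_bot_iff]
  intro x hx
  have h1 : n • Multiplicative.toAdd x = 0 := hx
  rw [Subgroup.mem_bot]
  apply Multiplicative.toAdd.injective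
  rw [nsmul_eq_mul, mul_eq_zero] at h1
  rcases h1 with h | h
  · exfalso
    have : n = 0 := by exact_mod_cast h
    omega
  · exact h

theorem h0_sp {A : Type} [CommGroup A] (s : MulAut A) (n : ℕ) :
    h0 (sp (G' := Multiplicative ℤ) s) n = h0 s n * n := by
  unfold h0
  rw [range_nm, ker_dd, relIndex_prod', Subgroup.relIndex_top_right, index_pow n]

theorem h1_sp {A : Type} [CommGroup A] (s : MulAut A) (n : ℕ) (hn : 0 < n) :
    h1 (sp (G' := Multiplicative ℤ) s) n = h1 s n := by
  unfold h1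
  rw [range_dd, ker_nm, relIndex_prod', ker_pow n hn, Subgroup.relIndex_self, mul_one]

/-- the lattice in the whole space -/
noncomputable def lp {A X : Type} (ℓ : A → X → ℝ) (a : A × Multiplicative ℤ) : X → ℝ :=
  fun x => ℓ a.1 x + ((Multiplicative.toAdd a.2 : ℤ) : ℝ)

theorem isLat_lp {A X : Type} [CommGroup A] [Fintype X] [Nonempty X] (ℓ : A → X → ℝ)
    (hmul : ∀ a b, ℓ (a * b) = ℓ a + ℓ b) (hfin : ∀ R : ℝ, {a : A | ‖ℓ a‖ ≤ R}.Finite)
    (hspan : ∀ f : X → ℝ, f ∈ Submodule.span ℝ (Set.range ℓ) ↔ ∑ x, f x = 0) :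
    IsLat (A × Multiplicative ℤ) (X → ℝ) (lp ℓ) where
  mul a b := by
    funext x
    simp only [lp, Prod.fst_mul, Prod.snd_mul, hmul, Pi.add_apply, toAdd_mul]
    push_cast
    ring
  fin R := by
    have hX : 0 < (Fintype.card X : ℝ) := by exact_mod_cast Fintype.card_pos
    have h1 : ({a : A | ‖ℓ a‖ ≤ 2 * R} ×ˢ
        (Multiplicative.toAdd ⁻¹' (Set.Icc (-⌈R⌉) ⌈R⌉))).Finite := by
      refine Set.Finite.prod (hfin _) ?_
      exact (Set.finite_Icc _ _).preimage Multiplicative.toAdd.injective.injOn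
    refine h1.subset ?_
    intro a ha
    have ha' : ‖lp ℓ a‖ ≤ R := ha
    have hR : 0 ≤ R := (norm_nonneg _).trans ha'
    have h2 : ∀ x, |lp ℓ a x| ≤ R := fun x => (norm_le_pi_norm (lp ℓ a) x).trans ha'
    have h3 : ∑ x, lp ℓ a x = (Fintype.card X : ℝ) * ((Multiplicative.toAdd a.2 : ℤ) : ℝ) := by
      have h4 : ∑ x, ℓ a.1 x = 0 := (hspan _).1 (Submodule.subset_span ⟨a.1, rfl⟩)
      simp only [lp, Finset.sum_add_distrib, h4, zero_add, Finset.sum_const, Finset.card_univ,
        nsmul_eq_mul]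
    have h4 : |((Multiplicative.toAdd a.2 : ℤ) : ℝ)| ≤ R := by
      have h5 : |∑ x, lp ℓ a x| ≤ (Fintype.card X : ℝ) * R := by
        refine (Finset.abs_sum_le_sum_abs _ _).trans ?_
        refine (Finset.sum_le_sum fun x _ => h2 x).trans ?_
        rw [Finset.sum_const, Finset.card_univ, nsmul_eq_mul]
      rw [h3, abs_mul, abs_of_pos hX] at h5
      exact le_of_mul_le_mul_left h5 hX
    refine ⟨?_, ?_⟩
    · change ‖ℓ a.1‖ ≤ 2 * R
      rw [pi_norm_le_iff_of_nonneg (by linarith)]
      intro x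
      have h5 : ℓ a.1 x = lp ℓ a x - ((Multiplicative.toAdd a.2 : ℤ) : ℝ) := by
        simp [lp]
      rw [h5, Real.norm_eq_abs]
      have h6 := abs_le.1 (h2 x)
      have h7 := abs_le.1 h4
      rw [abs_le]
      constructor <;> linarith [h6.1, h6.2, h7.1, h7.2]
    · change Multiplicative.toAdd a.2 ∈ Set.Icc (-⌈R⌉) ⌈R⌉
      have h5 := Int.le_ceil R
      have h7 := abs_le.1 h4
      constructor
      · have h6 : ((-⌈R⌉ : ℤ) : ℝ) ≤ ((Multiplicative.toAdd a.2 : ℤ) : ℝ) := by
          push_cast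
          linarith [h7.1]
        exact_mod_cast h6
      · have h6 : ((Multiplicative.toAdd a.2 : ℤ) : ℝ) ≤ ((⌈R⌉ : ℤ) : ℝ) := by
          linarith [h7.2]
        exact_mod_cast h6
  span := by
    rw [eq_top_iff]
    intro f _
    have hX : (Fintype.card X : ℝ) ≠ 0 := by
      have : 0 < (Fintype.card X : ℝ) := by exact_mod_cast Fintype.card_pos
      exact this.ne'
    set c : ℝ := (∑ x, f x) / Fintype.card X with hc
    have h0 : ℓ 1 = 0 := by
      have := hmul 1 1
      rw [mul_one] at this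
      exact left_eq_add.1 this
    have h1 : (f - fun _ => c) ∈ Submodule.span ℝ (Set.range (lp ℓ)) := by
      have h2 : (f - fun _ => c) ∈ Submodule.span ℝ (Set.range ℓ) := by
        rw [hspan]
        simp only [Pi.sub_apply, Finset.sum_sub_distrib, Finset.sum_const, Finset.card_univ,
          nsmul_eq_mul]
        rw [hc, mul_div_cancel₀ _ hX, sub_self]
      refine Submodule.span_mono ?_ h2
      rintro _ ⟨a, rfl⟩
      refine ⟨(a, 1), ?_⟩
      funext x
      simp [lp]
    have h2 : (fun _ => (1 : ℝ)) ∈ Submodule.span ℝ (Set.range (lp ℓ)) := by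
      apply Submodule.subset_span
      refine ⟨(1, Multiplicative.ofAdd 1), ?_⟩
      funext x
      simp [lp, h0]
    have h3 : f = (f - fun _ => c) + c • (fun _ => (1 : ℝ)) := by
      funext x
      simp
    rw [h3]
    exact add_mem h1 (Submodule.smul_mem _ _ h2)

end Pool.Agent.Helper93.REC.HES

namespace Pool.Agent.Helper93.REC

open _root_.REC

theorem st_HES : ST_HERB → ST_HES := by
  intro hH A _ X Y _ _ _ π pr ℓ s n hn hs hπ ho hl hmul hfin hspan
  have h1 := hH (A × Multiplicative ℤ) X Y π pr (HES.lp ℓ) (HES.sp s) n hn (by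
    apply MulEquiv.ext
    intro a
    rw [HES.sp_pow, hs]
    rfl) hπ ho (by
    intro a x
    change ℓ (s a.1) (π x) + _ = ℓ a.1 x + _
    rw [hl]
    rfl) (HES.isLat_lp ℓ hmul hfin hspan)
  rw [HES.h0_sp s n, HES.h1_sp s n hn] at h1
  obtain ⟨h2, h3, h4⟩ := h1
  refine ⟨fun h => h2 (by rw [h, zero_mul]), h3, ?_⟩
  rw [mul_comm]
  exact h4

end Pool.Agent.Helper93.REC
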