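import Pool.Agent.Helper85.REC.Stmts6
import Pool.Agent.Helper85.MU.ISO

/-!
REC part 6, ISO0: finitely many classes in an isogeny class, uniformly.
-/

set_option autoImplicit false

open scoped Classical

namespace Pool.Agent.Helper93.REC

open _root_.REC MU

/-- representatives for finitely many colours -/
theorem exists_reps {α κ : Type} [Finite κ] (s : Set α) (R : α → κ → Prop)
    (hR : ∀ a ∈ s, ∃ y, R a y) :
    ∃ T : Finset α, (T : Set α) ⊆ s ∧ T.card ≤ Nat.card κ ∧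
      ∀ a ∈ s, ∃ b ∈ T, ∃ y, R a y ∧ R b y := by
  have : Fintype κ := Fintype.ofFinite κ
  let P : κ → Prop := fun y => ∃ a ∈ s, R a y
  let S : Finset {y : κ // P y} := Finset.univ
  refine ⟨S.image fun y => y.2.choose, ?_, ?_, ?_⟩
  · intro a ha
    rw [Finset.mem_coe, Finset.mem_image] at ha
    obtain ⟨y, -, rfl⟩ := ha
    exact y.2.choose_spec.1
  · refine Finset.card_image_le.trans ?_
    rw [Nat.card_eq_fintype_card]
    change Fintype.card {y : κ // P y} ≤ _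
    exact Fintype.card_subtype_le _
  · intro a ha
    obtain ⟨y, hy⟩ := hR a ha
    have hPy : P y := ⟨a, ha, hy⟩
    exact ⟨_, Finset.mem_image.2 ⟨⟨y, hPy⟩, Finset.mem_univ _, rfl⟩, y, hy,
      hPy.choose_spec.2⟩

/-- an isogeny which is everywhere a scalar times an invertible integral matrix gives an
isomorphism -/
theorem iso_of_local {F : Type} [Field F] [NumberField F] {S : Finset ℕ} {n w : ℕ}
    {h : Fin n → ℕ} (M M' : Mot F S n w h) (u : Matrix.GeneralLinearGroup (Fin n) ℚ)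
    (hu : ∀ (l : ℕ) [Fact l.Prime] (g : Gal F),
      (u : Matrix (Fin n) (Fin n) ℚ).map (algebraMap ℚ ℚ_[l]) * rat (M.ρ l) g =
        rat (M'.ρ l) g * (u : Matrix (Fin n) (Fin n) ℚ).map (algebraMap ℚ ℚ_[l]))
    (hloc : ∀ (l : ℕ) [Fact l.Prime], ∃ (d : ℚ_[l]) (K : Matrix.GeneralLinearGroup (Fin n) ℤ_[l]),
      (u : Matrix (Fin n) (Fin n) ℚ).map (algebraMap ℚ ℚ_[l]) =
        d • (K : Matrix (Fin n) (Fin n) ℤ_[l]).map (algebraMap ℤ_[l] ℚ_[l])) : M.Iso M' := by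
  rcases Nat.eq_zero_or_pos n with hn | hn
  · subst hn
    exact ⟨1, fun l _ g => by ext i; exact i.elim0⟩
  have hu0 : (u : Matrix (Fin n) (Fin n) ℚ) ≠ 0 := by
    intro h0
    have h1 := u.isUnit
    rw [h0] at h1
    have : Nonempty (Fin n) := ⟨⟨0, hn⟩⟩
    exact not_isUnit_zero h1
  obtain ⟨c, W, hc, hW, hWl⟩ := iso_primitive _ hu0
  have hcomp : ∀ (l : ℕ) [Fact l.Prime], (u : Matrix (Fin n) (Fin n) ℚ).map (algebraMap ℚ ℚ_[l]) =
      (c : ℚ_[l]) • (W.map (algebraMap ℤ ℤ_[l])).map (algebraMap ℤ_[l] ℚ_[l]) := by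
    intro l _
    rw [hW]
    ext i j
    simp
  have hcl : ∀ (l : ℕ) [Fact l.Prime], (c : ℚ_[l]) ≠ 0 := by
    intro l _
    exact_mod_cast hc
  -- intertwining property of W
  have hWint : ∀ (l : ℕ) [Fact l.Prime] (g : Gal F),
      W.map (algebraMap ℤ ℤ_[l]) * (M.ρ l g : Matrix (Fin n) (Fin n) ℤ_[l]) =
      (M'.ρ l g : Matrix (Fin n) (Fin n) ℤ_[l]) * W.map (algebraMap ℤ ℤ_[l]) := by
    intro l _ g
    apply map_padic_injective
    have h1 := hu l g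
    rw [hcomp l, Matrix.smul_mul, Matrix.mul_smul] at h1
    have h2 := smul_right_injective _ (hcl l) h1
    simp only [Matrix.map_mul]
    exact h2
  -- the determinant of W is a unit
  have hdet : ∀ l : ℕ, l.Prime → ¬ (l : ℤ) ∣ W.det := by
    intro l hl
    have : Fact l.Prime := ⟨hl⟩
    obtain ⟨d, x, hx⟩ := hloc l
    -- `W = a K` with `a` in `ℚ_l`
    obtain ⟨a, ha⟩ : ∃ a : ℚ_[l], (W.map (algebraMap ℤ ℤ_[l])).map (algebraMap ℤ_[l] ℚ_[l]) =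
        a • (x : Matrix (Fin n) (Fin n) ℤ_[l]).map (algebraMap ℤ_[l] ℚ_[l]) := by
      refine ⟨(c : ℚ_[l])⁻¹ * d, ?_⟩
      rw [mul_smul, ← hx, hcomp l, smul_smul, inv_mul_cancel₀ (hcl l), one_smul]
    set Y : Matrix (Fin n) (Fin n) ℤ_[l] :=
      W.map (algebraMap ℤ ℤ_[l]) * ((x⁻¹ : Matrix.GeneralLinearGroup (Fin n) ℤ_[l]) :
        Matrix (Fin n) (Fin n) ℤ_[l]) with hY
    have hYa : Y.map (algebraMap ℤ_[l] ℚ_[l]) = a • (1 : Matrix (Fin n) (Fin n) ℚ_[l]) := by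
      rw [hY, Matrix.map_mul, ha, Matrix.smul_mul, ← Matrix.map_mul, ← Units.val_mul,
        mul_inv_cancel, Units.val_one, Matrix.map_one _ (map_zero _) (map_one _)]
    have hYd : ∀ i j, algebraMap ℤ_[l] ℚ_[l] (Y i j) =
        (a • (1 : Matrix (Fin n) (Fin n) ℚ_[l])) i j := by
      intro i j
      rw [← hYa]
      rfl
    set t : ℤ_[l] := Y ⟨0, hn⟩ ⟨0, hn⟩ with ht
    have hta : algebraMap ℤ_[l] ℚ_[l] t = a := by
      rw [ht, hYd]
      simp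
    have hYt : Y = t • (1 : Matrix (Fin n) (Fin n) ℤ_[l]) := by
      apply map_padic_injective
      change Y.map _ = (t • (1 : Matrix (Fin n) (Fin n) ℤ_[l])).map _
      ext i j
      rw [Matrix.map_apply, hYd, Matrix.map_apply, Matrix.smul_apply, Matrix.smul_apply,
        smul_eq_mul, smul_eq_mul, map_mul, hta, Matrix.one_apply, Matrix.one_apply]
      split_ifs <;> simp
    have hWx : W.map (algebraMap ℤ ℤ_[l]) = t • (x : Matrix (Fin n) (Fin n) ℤ_[l]) := by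
      have h1 : Y * (x : Matrix (Fin n) (Fin n) ℤ_[l]) = W.map (algebraMap ℤ ℤ_[l]) := by
        rw [hY, Matrix.mul_assoc, ← Units.val_mul, inv_mul_cancel, Units.val_one, Matrix.mul_one]
      rw [← h1, hYt, Matrix.smul_mul, Matrix.one_mul]
    have htu : ¬ (l : ℤ_[l]) ∣ t := by
      intro hlt
      obtain ⟨i, j, hij⟩ := hWl l hl
      apply hij
      have h1 : (l : ℤ_[l]) ∣ ((W i j : ℤ) : ℤ_[l]) := by
        have h2 : ((W i j : ℤ) : ℤ_[l]) = t * (x : Matrix (Fin n) (Fin n) ℤ_[l]) i j := by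
          have h3 := congrFun (congrFun hWx i) j
          simpa using h3
        rw [h2]
        exact hlt.mul_right _
      have h4 := (PadicInt.norm_int_lt_one_iff_dvd (p := l) (W i j)).1
      apply h4
      obtain ⟨y, hy⟩ := h1
      rw [hy, norm_mul]
      calc ‖(l : ℤ_[l])‖ * ‖y‖ ≤ ‖(l : ℤ_[l])‖ * 1 :=
            mul_le_mul_of_nonneg_left (PadicInt.norm_le_one y) (norm_nonneg _)
        _ < 1 := by
          rw [mul_one, PadicInt.norm_p]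
          exact inv_lt_one_of_one_lt₀ (by exact_mod_cast hl.one_lt)
    have htunit : IsUnit t := by
      rw [PadicInt.isUnit_iff]
      by_contra h1
      apply htu
      have h2 : ‖t‖ < 1 := lt_of_le_of_ne (PadicInt.norm_le_one t) h1
      exact (PadicInt.norm_lt_one_iff_dvd t).1 h2
    have hdetunit : IsUnit ((W.det : ℤ) : ℤ_[l]) := by
      have h1 : ((W.det : ℤ) : ℤ_[l]) = (W.map (algebraMap ℤ ℤ_[l])).det := by
        have := (RingHom.map_det (algebraMap ℤ ℤ_[l]) W)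
        simpa using this
      rw [h1, hWx, Matrix.det_smul]
      exact (htunit.pow _).mul ((Matrix.isUnit_iff_isUnit_det _).1 x.isUnit)
    intro hdvd
    have h1 := (PadicInt.norm_int_lt_one_iff_dvd (p := l) W.det).2 hdvd
    rw [PadicInt.isUnit_iff] at hdetunit
    rw [hdetunit] at h1
    exact lt_irrefl _ h1
  have hunit : IsUnit W.det := by
    rw [Int.isUnit_iff_natAbs_eq]
    rw [Nat.eq_one_iff_not_exists_prime_dvd]
    intro l hl hdvd
    exact hdet l hl (Int.natCast_dvd.2 hdvd)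
  let W' : Matrix.GeneralLinearGroup (Fin n) ℤ := Matrix.GeneralLinearGroup.mk'' W hunit
  exact ⟨W', fun l _ g => hWint l g⟩

theorem gl_inv_map {n l : ℕ} [Fact l.Prime] (a : Matrix.GeneralLinearGroup (Fin n) ℤ_[l]) :
    ((a⁻¹ : Matrix.GeneralLinearGroup (Fin n) ℤ_[l]) : Matrix (Fin n) (Fin n) ℤ_[l]).map
        (algebraMap ℤ_[l] ℚ_[l]) *
      (a : Matrix (Fin n) (Fin n) ℤ_[l]).map (algebraMap ℤ_[l] ℚ_[l]) = 1 := by
  rw [← Matrix.map_mul, ← Units.val_mul, inv_mul_cancel, Units.val_one,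
    Matrix.map_one _ (map_zero _) (map_one _)]

theorem glQ_inv_map {n l : ℕ} [Fact l.Prime] (u : Matrix.GeneralLinearGroup (Fin n) ℚ) :
    ((u⁻¹ : Matrix.GeneralLinearGroup (Fin n) ℚ) : Matrix (Fin n) (Fin n) ℚ).map
        (algebraMap ℚ ℚ_[l]) *
      (u : Matrix (Fin n) (Fin n) ℚ).map (algebraMap ℚ ℚ_[l]) = 1 := by
  rw [← Matrix.map_mul, ← Units.val_mul, inv_mul_cancel, Units.val_one,
    Matrix.map_one _ (map_zero _) (map_one _)]

theorem glQ_map_inv {n l : ℕ} [Fact l.Prime] (u : Matrix.GeneralLinearGroup (Fin n) ℚ) :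
    (u : Matrix (Fin n) (Fin n) ℚ).map (algebraMap ℚ ℚ_[l]) *
    ((u⁻¹ : Matrix.GeneralLinearGroup (Fin n) ℚ) : Matrix (Fin n) (Fin n) ℚ).map
        (algebraMap ℚ ℚ_[l]) = 1 := by
  rw [← Matrix.map_mul, ← Units.val_mul, mul_inv_cancel, Units.val_one,
    Matrix.map_one _ (map_zero _) (map_one _)]

theorem st_ISO0 : ST_LTH → ST_ISO0 := by
  intro hLTH F _ _ S n w h M₀ hM₀
  obtain ⟨hrat, c₀, hres⟩ := hM₀
  have hL : ∀ (l : ℕ) (_ : Fact l.Prime), ∃ T : Finset (Matrix (Fin n) (Fin n) ℚ_[l]),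
      (IsIrr (res (M₀.ρ l)) → T = {1}) ∧
      ∀ (s : Gal F →* Matrix.GeneralLinearGroup (Fin n) ℤ_[l])
        (g : Matrix.GeneralLinearGroup (Fin n) ℚ_[l]),
        (∀ x, (g : Matrix (Fin n) (Fin n) ℚ_[l]) * rat s x = rat (M₀.ρ l) x * g) →
        ∃ t ∈ T, ∃ (c : ℚ_[l]) (u : Matrix.GeneralLinearGroup (Fin n) ℤ_[l]), c ≠ 0 ∧
          (g : Matrix (Fin n) (Fin n) ℚ_[l]) =
            c • (t * (u : Matrix (Fin n) (Fin n) ℤ_[l]).map (algebraMap ℤ_[l] ℚ_[l])) :=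
    fun l _ => hLTH (Gal F) n l (M₀.ρ l) (hrat l)
  choose T hT1 hT2 using hL
  have hfin : Finite {l : ℕ // l.Prime ∧ l ≤ c₀} := by
    refine Finite.of_injective (fun i : {l : ℕ // l.Prime ∧ l ≤ c₀} =>
      (⟨i.1, Nat.lt_succ_of_le i.2.2⟩ : Fin (c₀ + 1))) ?_
    intro i j hij
    apply Subtype.ext
    exact congrArg Fin.val hij
  refine ⟨Nat.card (∀ i : {l : ℕ // l.Prime ∧ l ≤ c₀}, {t // t ∈ T i.1 ⟨i.2.1⟩}), ?_⟩
  intro 𝒯 hA hI
  rcases Set.eq_empty_or_nonempty 𝒯 with he | ⟨M₁, hM₁⟩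
  · subst he
    exact ⟨∅, by simp, by simp, fun M hM => absurd hM (Set.notMem_empty M)⟩
  -- the adelic isomorphism of the base point
  have ha : ∀ (l : ℕ) (_ : Fact l.Prime), ∃ a : Matrix.GeneralLinearGroup (Fin n) ℤ_[l],
      ∀ g : Gal F, a * M₁.ρ l g = M₀.ρ l g * a := fun l _ => hA M₁ hM₁ l
  choose a ha using ha
  have haq : ∀ (l : ℕ) (hl : Fact l.Prime) (g : Gal F),
      (a l hl : Matrix (Fin n) (Fin n) ℤ_[l]).map (algebraMap ℤ_[l] ℚ_[l]) * rat (M₁.ρ l) g =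
      rat (M₀.ρ l) g * (a l hl : Matrix (Fin n) (Fin n) ℤ_[l]).map (algebraMap ℤ_[l] ℚ_[l]) := by
    intro l hl g
    rw [rat_apply, rat_apply, ← Matrix.map_mul, ← Matrix.map_mul, ← Units.val_mul,
      ← Units.val_mul, ha l hl g]
  let R : Mot F S n w h → (∀ i : {l : ℕ // l.Prime ∧ l ≤ c₀}, {t // t ∈ T i.1 ⟨i.2.1⟩}) → Prop :=
    fun M y => ∃ u : Matrix.GeneralLinearGroup (Fin n) ℚ,
      (∀ (l : ℕ) [Fact l.Prime] (g : Gal F),
        (u : Matrix (Fin n) (Fin n) ℚ).map (algebraMap ℚ ℚ_[l]) * rat (M.ρ l) g =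
          rat (M₁.ρ l) g * (u : Matrix (Fin n) (Fin n) ℚ).map (algebraMap ℚ ℚ_[l])) ∧
      ∀ (l : ℕ) (hl : Fact l.Prime), ∃ t : Matrix (Fin n) (Fin n) ℚ_[l],
        (∀ hc : l ≤ c₀, t = (y ⟨l, hl.out, hc⟩).1) ∧ (c₀ < l → t = 1) ∧
        ∃ (c : ℚ_[l]) (k : Matrix.GeneralLinearGroup (Fin n) ℤ_[l]), c ≠ 0 ∧
          (a l hl : Matrix (Fin n) (Fin n) ℤ_[l]).map (algebraMap ℤ_[l] ℚ_[l]) *
            (u : Matrix (Fin n) (Fin n) ℚ).map (algebraMap ℚ ℚ_[l]) =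
            c • (t * (k : Matrix (Fin n) (Fin n) ℤ_[l]).map (algebraMap ℤ_[l] ℚ_[l]))
  have hR : ∀ M ∈ 𝒯, ∃ y, R M y := by
    intro M hM
    obtain ⟨u, hu⟩ := hI M hM M₁ hM₁
    have h1 : ∀ (l : ℕ) (hl : Fact l.Prime), ∃ t ∈ T l hl,
        ∃ (c : ℚ_[l]) (k : Matrix.GeneralLinearGroup (Fin n) ℤ_[l]), c ≠ 0 ∧
          (a l hl : Matrix (Fin n) (Fin n) ℤ_[l]).map (algebraMap ℤ_[l] ℚ_[l]) *
            (u : Matrix (Fin n) (Fin n) ℚ).map (algebraMap ℚ ℚ_[l]) =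
            c • (t * (k : Matrix (Fin n) (Fin n) ℤ_[l]).map (algebraMap ℤ_[l] ℚ_[l])) := by
      intro l hl
      have hinv : ((a l hl : Matrix (Fin n) (Fin n) ℤ_[l]).map (algebraMap ℤ_[l] ℚ_[l]) *
            (u : Matrix (Fin n) (Fin n) ℚ).map (algebraMap ℚ ℚ_[l])) *
          (((u⁻¹ : Matrix.GeneralLinearGroup (Fin n) ℚ) : Matrix (Fin n) (Fin n) ℚ).map
            (algebraMap ℚ ℚ_[l]) *
          (((a l hl)⁻¹ : Matrix.GeneralLinearGroup (Fin n) ℤ_[l]) :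
            Matrix (Fin n) (Fin n) ℤ_[l]).map (algebraMap ℤ_[l] ℚ_[l])) = 1 := by
        rw [Matrix.mul_assoc, ← Matrix.mul_assoc ((u : Matrix (Fin n) (Fin n) ℚ).map _),
          glQ_map_inv, Matrix.one_mul, ← Matrix.map_mul, ← Units.val_mul, mul_inv_cancel,
          Units.val_one, Matrix.map_one _ (map_zero _) (map_one _)]
      exact hT2 l hl (M.ρ l) ⟨_, _, hinv, mul_eq_one_comm.mp hinv⟩ (by
        intro x
        change ((a l hl : Matrix (Fin n) (Fin n) ℤ_[l]).map (algebraMap ℤ_[l] ℚ_[l]) *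
            (u : Matrix (Fin n) (Fin n) ℚ).map (algebraMap ℚ ℚ_[l])) * rat (M.ρ l) x =
          rat (M₀.ρ l) x * ((a l hl : Matrix (Fin n) (Fin n) ℤ_[l]).map (algebraMap ℤ_[l] ℚ_[l]) *
            (u : Matrix (Fin n) (Fin n) ℚ).map (algebraMap ℚ ℚ_[l]))
        rw [Matrix.mul_assoc, hu l x, ← Matrix.mul_assoc, haq l hl x, Matrix.mul_assoc])
    choose t ht1 ht2 using h1
    refine ⟨fun i => ⟨t i.1 ⟨i.2.1⟩, ht1 i.1 ⟨i.2.1⟩⟩, u, hu, ?_⟩
    intro l hl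
    refine ⟨t l hl, fun _ => rfl, ?_, ht2 l hl⟩
    intro hc
    have h2 := ht1 l hl
    rw [hT1 l hl (hres l hc)] at h2
    exact Finset.mem_singleton.1 h2
  obtain ⟨Tf, h1, h2, h3⟩ := exists_reps 𝒯 R hR
  refine ⟨Tf, h1, h2, ?_⟩
  intro M hM
  obtain ⟨M', hM', y, ⟨u, hu, hul⟩, ⟨u', hu', hul'⟩⟩ := h3 M hM
  refine ⟨M', hM', ?_⟩
  have hv : ∀ (l : ℕ) [Fact l.Prime], ((u'⁻¹ * u : Matrix.GeneralLinearGroup (Fin n) ℚ) :
      Matrix (Fin n) (Fin n) ℚ).map (algebraMap ℚ ℚ_[l]) =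
      ((u'⁻¹ : Matrix.GeneralLinearGroup (Fin n) ℚ) : Matrix (Fin n) (Fin n) ℚ).map
        (algebraMap ℚ ℚ_[l]) * (u : Matrix (Fin n) (Fin n) ℚ).map (algebraMap ℚ ℚ_[l]) := by
    intro l _
    rw [Units.val_mul, Matrix.map_mul]
  refine iso_of_local M M' (u'⁻¹ * u) ?_ ?_
  · intro l _ g
    rw [hv, Matrix.mul_assoc, hu l g, ← Matrix.mul_assoc, ← Matrix.mul_assoc]
    congr 1
    have h4 := hu' l g
    calc ((u'⁻¹ : Matrix.GeneralLinearGroup (Fin n) ℚ) : Matrix (Fin n) (Fin n) ℚ).map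
            (algebraMap ℚ ℚ_[l]) * rat (M₁.ρ l) g
        = ((u'⁻¹ : Matrix.GeneralLinearGroup (Fin n) ℚ) : Matrix (Fin n) (Fin n) ℚ).map
            (algebraMap ℚ ℚ_[l]) * (rat (M₁.ρ l) g *
            ((u' : Matrix (Fin n) (Fin n) ℚ).map (algebraMap ℚ ℚ_[l]) *
            ((u'⁻¹ : Matrix.GeneralLinearGroup (Fin n) ℚ) : Matrix (Fin n) (Fin n) ℚ).map
            (algebraMap ℚ ℚ_[l]))) := by rw [glQ_map_inv, Matrix.mul_one]
      _ = (((u'⁻¹ : Matrix.GeneralLinearGroup (Fin n) ℚ) : Matrix (Fin n) (Fin n) ℚ).map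
            (algebraMap ℚ ℚ_[l]) * (u' : Matrix (Fin n) (Fin n) ℚ).map (algebraMap ℚ ℚ_[l])) *
            (rat (M'.ρ l) g *
            ((u'⁻¹ : Matrix.GeneralLinearGroup (Fin n) ℚ) : Matrix (Fin n) (Fin n) ℚ).map
            (algebraMap ℚ ℚ_[l])) := by
          rw [← Matrix.mul_assoc (rat (M₁.ρ l) g), ← h4]
          simp only [Matrix.mul_assoc]
      _ = _ := by rw [glQ_inv_map, Matrix.one_mul]
  · intro l hl
    obtain ⟨t, ht1, ht2, c, k, hc, hk⟩ := hul l hl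
    obtain ⟨t', ht1', ht2', c', k', hc', hk'⟩ := hul' l hl
    have htt : t' = t := by
      rcases le_or_gt l c₀ with h4 | h4
      · rw [ht1 h4, ht1' h4]
      · rw [ht2 h4, ht2' h4]
    rw [htt] at hk'
    refine ⟨c / c', k'⁻¹ * k, ?_⟩
    have h5 : (a l hl : Matrix (Fin n) (Fin n) ℤ_[l]).map (algebraMap ℤ_[l] ℚ_[l]) *
        ((u' : Matrix (Fin n) (Fin n) ℚ).map (algebraMap ℚ ℚ_[l]) *
        ((c / c') • ((k'⁻¹ * k : Matrix.GeneralLinearGroup (Fin n) ℤ_[l]) :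
          Matrix (Fin n) (Fin n) ℤ_[l]).map (algebraMap ℤ_[l] ℚ_[l]))) =
        (a l hl : Matrix (Fin n) (Fin n) ℤ_[l]).map (algebraMap ℤ_[l] ℚ_[l]) *
        (u : Matrix (Fin n) (Fin n) ℚ).map (algebraMap ℚ ℚ_[l]) := by
      rw [← Matrix.mul_assoc, hk', hk, Matrix.smul_mul, Matrix.mul_smul, smul_smul,
        mul_div_cancel₀ _ hc', Matrix.mul_assoc, ← Matrix.map_mul, ← Units.val_mul,
        mul_inv_cancel_left]
    have h6 := congrArg (fun Z => (((a l hl)⁻¹ : Matrix.GeneralLinearGroup (Fin n) ℤ_[l]) :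
      Matrix (Fin n) (Fin n) ℤ_[l]).map (algebraMap ℤ_[l] ℚ_[l]) * Z) h5
    simp only [← Matrix.mul_assoc, gl_inv_map, Matrix.one_mul] at h6
    rw [hv, ← h6, ← Matrix.mul_assoc, glQ_inv_map, Matrix.one_mul]

end Pool.Agent.Helper93.REC
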