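import Pool.Agent.Helper85.REC.Stmts6
import Pool.Agent.Helper43.MU.LAT
import Pool.Agent.Helper85.MU.LARGE

/-!
REC part 6, LTH: stable lattices in an irreducible representation, up to homothety.
-/

set_option autoImplicit false

open scoped Classical

namespace Pool.Agent.Helper93.REC

open _root_.REC MU

section LTH

variable {l : ℕ} [Fact l.Prime]

/-- matrices dividing `l ^ m` which agree modulo `l ^ m` differ by an invertible factor -/
theorem lth_key {n m : ℕ} {w w' : Matrix (Fin n) (Fin n) ℤ_[l]}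
    (h : ∃ c, w * c = ((l : ℤ_[l]) ^ m) • (1 : Matrix (Fin n) (Fin n) ℤ_[l]))
    (h' : ∃ c, w' * c = ((l : ℤ_[l]) ^ m) • (1 : Matrix (Fin n) (Fin n) ℤ_[l]))
    (heq : (PadicInt.toZModPow m).mapMatrix w = (PadicInt.toZModPow m).mapMatrix w') :
    ∃ u : Matrix.GeneralLinearGroup (Fin n) ℤ_[l],
      w' = w * (u : Matrix (Fin n) (Fin n) ℤ_[l]) := by
  have hl0 : (l : ℤ_[l]) ≠ 0 := by
    exact_mod_cast (Fact.out : l.Prime).ne_zero
  obtain ⟨c, hc⟩ := h
  obtain ⟨c', hc'⟩ := h'
  have hd : w.det ≠ 0 := by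
    intro h0
    have h1 := congrArg Matrix.det hc
    rw [Matrix.det_mul, h0, zero_mul, Matrix.det_smul, Matrix.det_one, mul_one] at h1
    exact (pow_ne_zero _ (pow_ne_zero _ hl0)) h1.symm
  have h1 : ∀ a b, ∃ z : ℤ_[l], w' a b = w a b + (l : ℤ_[l]) ^ m * z := by
    intro a b
    have h2 : w' a b - w a b ∈ RingHom.ker (PadicInt.toZModPow (p := l) m) := by
      rw [RingHom.mem_ker, map_sub, sub_eq_zero]
      exact (congrFun (congrFun heq a) b).symm
    rw [PadicInt.ker_toZModPow, Ideal.mem_span_singleton'] at h2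
    obtain ⟨z, hz⟩ := h2
    exact ⟨z, by rw [mul_comm, hz]; ring⟩
  choose z hz using h1
  have h2 : w' = w + ((l : ℤ_[l]) ^ m) • (Matrix.of z : Matrix (Fin n) (Fin n) ℤ_[l]) := by
    ext a b
    rw [hz a b]
    rfl
  have h3 : w' = w * (1 + c * Matrix.of z) := by
    rw [h2, Matrix.mul_add, Matrix.mul_one, ← Matrix.mul_assoc, hc, Matrix.smul_mul,
      Matrix.one_mul]
  have h4 : w = w' * (1 - c' * Matrix.of z) := by
    rw [Matrix.mul_sub, Matrix.mul_one, ← Matrix.mul_assoc, hc', Matrix.smul_mul,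
      Matrix.one_mul, h2, add_sub_cancel_right]
  have h5 : (1 + c * Matrix.of z) * (1 - c' * Matrix.of z) =
      (1 : Matrix (Fin n) (Fin n) ℤ_[l]) := by
    apply lat_cancel hd
    rw [← Matrix.mul_assoc, ← h3, ← h4, Matrix.mul_one]
  have h6 : (1 - c' * Matrix.of z) * (1 + c * Matrix.of z) =
      (1 : Matrix (Fin n) (Fin n) ℤ_[l]) := mul_eq_one_comm.mp h5
  exact ⟨⟨1 + c * Matrix.of z, 1 - c' * Matrix.of z, h5, h6⟩, h3⟩

theorem lth_int {G : Type} [Group G] {n : ℕ}
    (r s : G →* Matrix.GeneralLinearGroup (Fin n) ℤ_[l])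
    (g : Matrix (Fin n) (Fin n) ℚ_[l]) (hg : ∀ x, g * rat s x = rat r x * g)
    {c : ℚ_[l]} (hc : c ≠ 0) {X : Matrix (Fin n) (Fin n) ℤ_[l]}
    (hX : g = c • X.map (algebraMap ℤ_[l] ℚ_[l])) (x : G) :
    X * (s x : Matrix (Fin n) (Fin n) ℤ_[l]) = (r x : Matrix (Fin n) (Fin n) ℤ_[l]) * X := by
  apply map_padic_injective
  have h1 := hg x
  rw [hX, Matrix.smul_mul, Matrix.mul_smul] at h1
  have h2 := smul_right_injective _ hc h1
  simp only [Matrix.map_mul]
  exact h2

end LTH

theorem st_LTH : ST_LTH := by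
  intro G _ n l _ r hr
  have hl0 : (l : ℤ_[l]) ≠ 0 := by
    exact_mod_cast (Fact.out : l.Prime).ne_zero
  by_cases hres : IsIrr (res r)
  · -- the residual representation is irreducible
    refine ⟨{1}, fun _ => rfl, ?_⟩
    intro s g hg
    refine ⟨1, Finset.mem_singleton_self _, ?_⟩
    rcases Nat.eq_zero_or_pos n with hn | hn
    · subst hn
      exact ⟨1, 1, one_ne_zero, Subsingleton.elim _ _⟩
    have : Nonempty (Fin n) := ⟨⟨0, hn⟩⟩
    have hg0 : (g : Matrix (Fin n) (Fin n) ℚ_[l]) ≠ 0 := by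
      intro h0
      have h1 := g.isUnit
      rw [h0] at h1
      exact not_isUnit_zero h1
    obtain ⟨c, X, hc, hX, i₀, j₀, hij⟩ := large_primitive _ hg0
    have hint := lth_int r s _ hg hc hX
    set Y : Matrix (Fin n) (Fin n) (ZMod l) := X.map (PadicInt.toZMod (p := l)) with hY
    have hYint : ∀ x, Y * res s x = res r x * Y := by
      intro x
      rw [hY, res_apply, res_apply, ← Matrix.map_mul, hint x, Matrix.map_mul]
    have hYunit : IsUnit Y := by
      rcases irr_stable hres (LinearMap.range Y.mulVecLin) (by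
        rintro x _ ⟨v, rfl⟩
        refine ⟨(res s x).mulVec v, ?_⟩
        rw [Matrix.mulVecLin_apply, Matrix.mulVecLin_apply, Matrix.mulVec_mulVec,
          Matrix.mulVec_mulVec, hYint]) with h | h
      · exfalso
        have h1 : Y.mulVec (Pi.single j₀ 1) = 0 := by
          have h2 : Y.mulVecLin (Pi.single j₀ 1) ∈ LinearMap.range Y.mulVecLin := ⟨_, rfl⟩
          rw [h] at h2
          exact h2
        have h3 := congrFun h1 i₀
        rw [Matrix.mulVec_single_one] at h3
        have h4 : Y i₀ j₀ = 1 := by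
          rw [hY, Matrix.map_apply, hij, map_one]
        have h5 : Y i₀ j₀ = 0 := h3
        rw [h4] at h5
        exact one_ne_zero h5
      · rw [← Matrix.mulVec_surjective_iff_isUnit]
        exact LinearMap.range_eq_top.1 h
    have hdet : IsUnit X.det := by
      rw [PadicInt.isUnit_iff]
      by_contra h1
      have h2 : ‖X.det‖ < 1 := lt_of_le_of_ne (PadicInt.norm_le_one _) h1
      have h3 : PadicInt.toZMod (p := l) X.det = 0 := by
        rw [← RingHom.mem_ker, PadicInt.ker_toZMod, IsLocalRing.mem_maximalIdeal,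
          PadicInt.mem_nonunits]
        exact h2
      have h4 : Y.det = 0 := by
        rw [hY]
        have h5 := RingHom.map_det (PadicInt.toZMod (p := l)) X
        rw [h3] at h5
        exact h5.symm
      rw [Matrix.isUnit_iff_isUnit_det, h4] at hYunit
      exact not_isUnit_zero hYunit
    refine ⟨c, Matrix.GeneralLinearGroup.mk'' X hdet, hc, ?_⟩
    rw [Matrix.one_mul]
    exact hX
  · -- the general case
    rcases Nat.eq_zero_or_pos n with hn | hn
    · subst hn
      exact ⟨{1}, fun _ => rfl, fun s g _ =>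
        ⟨1, Finset.mem_singleton_self _, 1, 1, one_ne_zero, Subsingleton.elim _ _⟩⟩
    have : Nonempty (Fin n) := ⟨⟨0, hn⟩⟩
    obtain ⟨m, hm⟩ := lat_bound r hr
    let P : Matrix (Fin n) (Fin n) ℤ_[l] → Prop := fun w =>
      ∃ c, w * c = ((l : ℤ_[l]) ^ m) • (1 : Matrix (Fin n) (Fin n) ℤ_[l])
    let f : Matrix (Fin n) (Fin n) ℤ_[l] → Matrix (Fin n) (Fin n) (ZMod (l ^ m)) :=
      fun w => (PadicInt.toZModPow m).mapMatrix w
    have : NeZero (l ^ m) := ⟨pow_ne_zero _ (Fact.out : l.Prime).ne_zero⟩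
    have : Fintype (Matrix (Fin n) (Fin n) (ZMod (l ^ m))) :=
      inferInstanceAs (Fintype (Fin n → Fin n → ZMod (l ^ m)))
    let R : Matrix (Fin n) (Fin n) (ZMod (l ^ m)) → Matrix (Fin n) (Fin n) ℤ_[l] := fun y =>
      if h : ∃ w, P w ∧ f w = y then h.choose else 1
    refine ⟨Finset.univ.image fun y => (R y).map (algebraMap ℤ_[l] ℚ_[l]),
      fun h => absurd h hres, ?_⟩
    intro s g hg
    have hg0 : (g : Matrix (Fin n) (Fin n) ℚ_[l]) ≠ 0 := by
      intro h0
      have h1 := g.isUnit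
      rw [h0] at h1
      exact not_isUnit_zero h1
    obtain ⟨c, X, hc, hX, i₀, j₀, hij⟩ := large_primitive _ hg0
    have hint := lth_int r s _ hg hc hX
    have hPX : P X := by
      obtain ⟨k, hk⟩ := hm (fun a => X a j₀) ⟨i₀, by rw [hij, norm_one]⟩
      let N : Matrix (Fin n) (Fin n) ℤ_[l] := Matrix.of fun a b =>
        (s (k b) : Matrix (Fin n) (Fin n) ℤ_[l]) a j₀
      have h1 : latM r k (fun a => X a j₀) = X * N := by
        ext a b
        have h2 := congrFun (congrFun (hint (k b)) a) j₀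
        exact h2.symm
      have h3 : (latM r k (fun a => X a j₀)).det ≠ 0 := by
        intro h0
        rw [h0, norm_zero] at hk
        have hl1 : (0 : ℝ) < l := by exact_mod_cast (Fact.out : l.Prime).pos
        exact absurd hk (not_lt.mpr (by positivity))
      have h4 : ‖((l : ℤ_[l]) ^ m)‖ ≤ ‖(latM r k (fun a => X a j₀)).det‖ := by
        rw [norm_pow, PadicInt.norm_p]
        exact hk.le
      obtain ⟨z, hz⟩ := lat_dvd h3 h4
      refine ⟨z • (N * (X * N).adjugate), ?_⟩
      rw [Matrix.mul_smul, ← Matrix.mul_assoc, Matrix.mul_adjugate, smul_smul, hz, h1, mul_comm]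
    have hex : ∃ w, P w ∧ f w = f X := ⟨X, hPX, rfl⟩
    have hR : R (f X) = hex.choose := dif_pos hex
    obtain ⟨u, hu⟩ := lth_key hex.choose_spec.1 hPX hex.choose_spec.2
    refine ⟨_, Finset.mem_image.2 ⟨f X, Finset.mem_univ _, rfl⟩, c, u, hc, ?_⟩
    rw [hX, hR, ← Matrix.map_mul, ← hu]

end Pool.Agent.Helper93.REC
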