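import Pool.Agent.Helper85.REC.Stmts11
import Pool.Agent.Helper51.REC.SUM

/-!
# REC, part 10, row SMK: direct sums over an extension field
[helper93]
-/

set_option autoImplicit false

open scoped Classical
open NumberField Polynomial

namespace REC

open Pool.Agent.Helper13.ZL (Pl q)
open MU

theorem st_SMK (hAVS : ST_AVS) (hAVL : ST_AVL) (hSSL : ST_SSL) (hSSD : ST_SSD) (hSUG : ST_SUG)
    (hIXB : ST_IXB) : ST_SMK := by
  intro F K _ _ _ _ _ j r hbc S S' n w h M k m h' M' hsum hss hhlp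
  obtain ⟨P, Q, hPQ, hPQ0, hQP, hP⟩ := hsum
  have hidx : r.range.index ≠ 0 := (hIXB F K j r hbc).2
  constructor
  · intro l _
    have h1 : ∑ i, (Q i).map (algebraMap ℚ ℚ_[l]) * (P i).map (algebraMap ℚ ℚ_[l]) = 1 := by
      have := congrArg (fun X : Matrix (Fin n) (Fin n) ℚ => X.map (algebraMap ℚ ℚ_[l])) hQP
      rw [Matrix.map_one _ (map_zero _) (map_one _)] at this
      rw [← this]
      have h5 : ∀ X : Matrix (Fin n) (Fin n) ℚ,
          X.map (algebraMap ℚ ℚ_[l]) = (algebraMap ℚ ℚ_[l]).mapMatrix X := fun X => rfl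
      rw [h5, map_sum]
      refine Finset.sum_congr rfl fun i _ => ?_
      rw [← h5, Matrix.map_mul]
    refine hAVS (Gal F) (Gal K) ℚ_[l] r n (rat (M.ρ l)) (Nat.cast_ne_zero.2 hidx) ?_
    refine hSSD (Gal K) ℚ_[l] n k m ((rat (M.ρ l)).comp r) (fun i => rat ((M' i).ρ l))
      (fun i => (P i).map (algebraMap ℚ ℚ_[l])) (fun i => (Q i).map (algebraMap ℚ ℚ_[l]))
      (fun i => ?_) (fun i j hij => ?_) h1 (fun i g => hP i l g) (fun i => (hss i).1 l)
    · rw [← Matrix.map_mul, hPQ, Matrix.map_one _ (map_zero _) (map_one _)]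
    · rw [← Matrix.map_mul, hPQ0 i j hij, Matrix.map_zero _ (map_zero _)]
  · choose c1 hc1 using fun i => (hss i).2
    choose c2 hc2 using hhlp
    refine ⟨(∑ i, dens (P i)) + (∑ i, dens (Q i)) + (∑ i, c1 i) + (∑ i, ∑ j, c2 i j) +
      r.range.index, ?_⟩
    intro l hl hlt
    have hle : ∀ (f : Fin k → ℕ) (i : Fin k), f i ≤ ∑ i, f i := fun f i =>
      Finset.single_le_sum (f := f) (fun _ _ => Nat.zero_le _) (Finset.mem_univ i)
    have hlP : ∀ i, dens (P i) < l := fun i => by
      have := hle (fun i => dens (P i)) i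
      omega
    have hlQ : ∀ i, dens (Q i) < l := fun i => by
      have := hle (fun i => dens (Q i)) i
      omega
    have hl1 : ∀ i, c1 i < l := fun i => by
      have := hle c1 i
      omega
    have hl2 : ∀ i j, c2 i j < l := fun i j => by
      have h1 := hle (fun i => ∑ j, c2 i j) i
      have h2 := hle (fun j => c2 i j) j
      omega
    have hldvd : ¬ l ∣ r.range.index := fun h => by
      have := Nat.le_of_dvd (Nat.pos_of_ne_zero hidx) h
      omega
    choose P' hP' using fun i => exists_lift (l := l) (P i) (hlP i)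
    choose Q' hQ' using fun i => exists_lift (l := l) (Q i) (hlQ i)
    have hPQ' : ∀ i, P' i * Q' i = 1 := fun i => by
      apply map_inj_padic
      rw [Matrix.map_mul, hP', hQ', ← Matrix.map_mul, hPQ, Matrix.map_one _ (map_zero _) (map_one _),
        Matrix.map_one _ (map_zero _) (map_one _)]
    have hPQ0' : ∀ i j, i ≠ j → P' i * Q' j = 0 := fun i j hij => by
      apply map_inj_padic
      rw [Matrix.map_mul, hP', hQ', ← Matrix.map_mul, hPQ0 i j hij, Matrix.map_zero _ (map_zero _),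
        Matrix.map_zero _ (map_zero _)]
    have hQP' : ∑ i, Q' i * P' i = 1 := by
      apply map_inj_padic
      have h5 : ∀ X : Matrix (Fin n) (Fin n) ℤ_[l],
          X.map (algebraMap ℤ_[l] ℚ_[l]) = (algebraMap ℤ_[l] ℚ_[l]).mapMatrix X := fun X => rfl
      have h6 : ∀ X : Matrix (Fin n) (Fin n) ℚ,
          X.map (algebraMap ℚ ℚ_[l]) = (algebraMap ℚ ℚ_[l]).mapMatrix X := fun X => rfl
      have h7 := congrArg (fun X : Matrix (Fin n) (Fin n) ℚ => X.map (algebraMap ℚ ℚ_[l])) hQP
      rw [Matrix.map_one _ (map_zero _) (map_one _)] at h7 ⊢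
      rw [← h7, h5, h6, map_sum, map_sum]
      refine Finset.sum_congr rfl fun i _ => ?_
      rw [← h5, ← h6, Matrix.map_mul, Matrix.map_mul, hP', hQ']
    have hPr : ∀ i g, P' i * (((M.ρ l).comp r g : Matrix.GeneralLinearGroup (Fin n) ℤ_[l]) :
        Matrix (Fin n) (Fin n) ℤ_[l]) =
        ((M' i).ρ l g : Matrix (Fin (m i)) (Fin (m i)) ℤ_[l]) * P' i := fun i g => by
      apply map_inj_padic
      rw [Matrix.map_mul, Matrix.map_mul, hP']
      exact hP i l g
    have hlft : Lft ((M.ρ l).comp r) :=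
      hSUG (Gal K) n l k m ((M.ρ l).comp r) (fun i => (M' i).ρ l) P' Q' hPQ' hPQ0' hQP' hPr
        (fun i => hc1 i l (hl1 i)) (fun i j => hc2 i j l (hl2 i j))
    refine hSSL (Gal F) n l (M.ρ l) ⟨?_, ?_⟩
    · refine hAVS (Gal F) (Gal K) (ZMod l) r n (res (M.ρ l)) ?_ hlft.1
      intro h0
      exact hldvd ((ZMod.natCast_eq_zero_iff _ _).1 h0)
    · exact hAVL (Gal F) (Gal K) r n n l (M.ρ l) (M.ρ l) hldvd
        (fun u hu => hlft.2 u hu)

end REC
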