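import Pool.Agent.Helper85.REC.Stmts11
import Pool.Agent.Helper85.REC.IR2
import Pool.Agent.Helper34.REC.CL3

/-!
# REC, part 10, row DEQ: the characters of `FDat` are not all equal
[helper93]
-/

set_option autoImplicit false
set_option maxHeartbeats 800000

open scoped Classical
open NumberField Polynomial

namespace REC

open Pool.Agent.Helper13.ZL (Pl q)
open MU

theorem deq_identity {K : Type} [Field K] (a : K) (n : ℕ) (hn : 1 ≤ n) :
    ((n : K[X]) ^ n) * (Polynomial.X - C a) ^ n =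
      ((n : K[X]) * Polynomial.X + C (((Polynomial.X - C a) ^ n : K[X]).coeff (n - 1))) ^ n := by
  have h1 : ((Polynomial.X - C a) ^ n : K[X]).coeff (n - 1) = -a * n := by
    have h0 : (Polynomial.X - C a : K[X]) = Polynomial.X + C (-a) := by
      rw [map_neg, sub_eq_add_neg]
    rw [h0, Polynomial.coeff_X_add_C_pow]
    have h2 : n - (n - 1) = 1 := by omega
    rw [h2, pow_one]
    have h3 : n.choose (n - 1) = n := by
      rw [Nat.choose_symm_of_eq_add (show n = (n - 1) + 1 by omega), Nat.choose_one_right]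
    rw [h3]
  rw [h1, ← mul_pow]
  congr 1
  rw [map_mul, map_neg]
  have h4 : (C (n : K) : K[X]) = (n : K[X]) := by
    simp
  rw [h4]
  ring

theorem st_DEQ (hREL : ST_REL3) (hPIN : ST_PIN) (hOVP : ST_OVP) : ST_DEQ := by
  intro F _ _ S hS n w h M hh hn
  by_contra hcon
  push Not at hcon
  obtain ⟨L, _, _, _, ⟨τ0⟩⟩ := ir_gal F
  have hne : Nonempty (F →+* L) := ⟨τ0⟩
  obtain ⟨e, he⟩ := hREL F L S hS n w h M (by
    intro c
    obtain ⟨l, hl, hcl, hF, -⟩ := hcon c
    exact ⟨l, hl, hcl, hF⟩)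
  obtain ⟨hperm, S', hSS', hrel⟩ := he
  set i0 : Fin n := ⟨0, by omega⟩ with hi0
  set i1 : Fin n := ⟨1, by omega⟩ with hi1
  -- the exponents differ
  have hee : (fun τ => e i0 τ * 1) ≠ fun τ => e i1 τ * 1 := by
    intro h1
    have h2 := congrFun h1 τ0
    have h3 : e i0 τ0 = e i1 τ0 := Nat.eq_of_mul_eq_mul_right (by omega) h2
    obtain ⟨s, hs⟩ := hperm τ0
    rw [hs, hs] at h3
    have h4 := s.injective (hh h3)
    rw [hi0, hi1, Fin.mk.injEq] at h4
    omega
  obtain ⟨m, hm, hgen⟩ := lin_gen F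
  obtain ⟨p, v, hp, hcp, hpv, hprod⟩ := hPIN F L _ _ hee m (S'.sup id) hm
  have hpS' : p ∉ S' := by
    intro h1
    have h2 : p ≤ S'.sup id := Finset.le_sup (f := id) h1
    omega
  obtain ⟨x, hx1, hx2⟩ := hgen v
  obtain ⟨hO1, hO2, -, hO4, -, -, -⟩ := hOVP F
  obtain ⟨𝔓, h𝔓⟩ := hO1 v
  obtain ⟨σ₀, hσ₀⟩ := hO2 v 𝔓 h𝔓
  obtain ⟨p', f, hp', hf, hqv, hov', hp'v⟩ := hO4 v 𝔓 h𝔓
  have hpp' : p' = p := by
    by_contra hne'
    have h1 : Nat.Coprime p' p := (Nat.coprime_primes hp' hp).2 hne'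
    have h2 : IsCoprime (p' : 𝓞 F) (p : 𝓞 F) := by
      have h3 := (Nat.isCoprime_iff_coprime.mpr h1).map (Int.castRingHom (𝓞 F))
      simpa using h3
    obtain ⟨a, b, hab⟩ := h2
    apply v.isPrime.ne_top
    rw [Ideal.eq_top_iff_one, ← hab]
    exact Ideal.add_mem _ (Ideal.mul_mem_left _ _ hp'v) (Ideal.mul_mem_left _ _ hpv)
  rw [hpp'] at hqv hov'
  -- the Frobenius element
  obtain ⟨P, -, hP⟩ := M.pure p hp (fun h1 => hpS' (hSS' h1)) 𝔓 hov' (f * m)
    (σ₀ ^ m) (Nat.mul_pos hf hm) (by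
      have h1 := congPow_pow 𝔓 (q v) σ₀ hσ₀ m
      rw [hqv, ← pow_mul] at h1
      exact h1)
  have hPL := hrel v p 𝔓 1 m σ₀ x P hp hpS' hpv h𝔓 one_pos hm (by rw [pow_one]; exact hσ₀)
    hx1 hx2 (by
      intro l' _ hl'
      have h1 := hP l' hl'
      rwa [map_inv] at h1)
  -- the reductions
  have hmod : ∀ c : ℕ, ∃ l : ℕ, c < l ∧ l.Prime ∧
      ((n : (ZMod l)[X]) ^ n) * P.map (Int.castRingHom (ZMod l)) =
        ((n : (ZMod l)[X]) * Polynomial.X + C ((P.coeff (n - 1) : ℤ) : ZMod l)) ^ n := by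
    intro c
    obtain ⟨l, hl, hcl, -, hsc⟩ := hcon (max c p)
    refine ⟨l, (le_max_left _ _).trans_lt hcl, hl.out, ?_⟩
    have hlp : l ≠ p := ((le_max_right c p).trans_lt hcl).ne'
    obtain ⟨a, ha⟩ := hsc ((σ₀ ^ m)⁻¹)
    have h1 : (res (M.ρ l) ((σ₀ ^ m)⁻¹)).charpoly = P.map (Int.castRingHom (ZMod l)) := by
      have h2 : res (M.ρ l) ((σ₀ ^ m)⁻¹) =
          ((M.ρ l ((σ₀ ^ m)⁻¹) : Matrix.GeneralLinearGroup (Fin n) ℤ_[l]) :
            Matrix (Fin n) (Fin n) ℤ_[l]).map (PadicInt.toZMod (p := l)) := rfl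
      rw [h2, Matrix.charpoly_map, hP l hlp, Polynomial.map_map]
      congr 1
      exact Subsingleton.elim _ _
    have h3 := deq_identity a n (by omega)
    rw [← ha, h1, Polynomial.coeff_map] at h3
    exact h3
  -- over the integers
  have hZ : ((n : ℤ[X]) ^ n) * P = ((n : ℤ[X]) * Polynomial.X + C (P.coeff (n - 1))) ^ n := by
    rw [← sub_eq_zero]
    ext k
    rw [Polynomial.coeff_zero]
    by_contra hk
    obtain ⟨l, hcl, hl, hmodl⟩ := hmod (Int.natAbs ((((n : ℤ[X]) ^ n) * P -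
      ((n : ℤ[X]) * Polynomial.X + C (P.coeff (n - 1))) ^ n).coeff k))
    have h1 : (((n : ℤ[X]) ^ n) * P -
        ((n : ℤ[X]) * Polynomial.X + C (P.coeff (n - 1))) ^ n).map (Int.castRingHom (ZMod l)) = 0 := by
      rw [Polynomial.map_sub, Polynomial.map_mul, Polynomial.map_pow, Polynomial.map_pow,
        Polynomial.map_add, Polynomial.map_mul, Polynomial.map_natCast, Polynomial.map_X,
        Polynomial.map_C, hmodl, eq_intCast, sub_self]
    have h2 := congrArg (fun Q : (ZMod l)[X] => Q.coeff k) h1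
    simp only [Polynomial.coeff_map, Polynomial.coeff_zero, eq_intCast] at h2
    have h3 := (ZMod.intCast_zmod_eq_zero_iff_dvd _ _).1 h2
    have h4 := Int.natAbs_dvd_natAbs.2 h3
    rw [Int.natAbs_natCast] at h4
    have h5 := Nat.le_of_dvd (Int.natAbs_pos.2 hk) h4
    omega
  -- the eigenvalues are equal
  have hroot : ∀ i : Fin n, (n : 𝓞 L) * (∏ τ : F →+* L, RingOfIntegers.mapRingHom τ x ^
      (e i τ * 1)) = -((P.coeff (n - 1) : ℤ) : 𝓞 L) := by
    intro i
    have h1 := congrArg (Polynomial.map (Int.castRingHom (𝓞 L))) hZ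
    rw [Polynomial.map_mul, hPL, Polynomial.map_pow, Polynomial.map_pow, Polynomial.map_add,
      Polynomial.map_mul, Polynomial.map_X, Polynomial.map_C, Polynomial.map_natCast] at h1
    have h2 := congrArg (Polynomial.eval (∏ τ : F →+* L, RingOfIntegers.mapRingHom τ x ^
      (e i τ * 1))) h1
    rw [Polynomial.eval_mul, Polynomial.eval_prod, Finset.prod_eq_zero (Finset.mem_univ i) (by
      rw [Polynomial.eval_sub, Polynomial.eval_X, Polynomial.eval_C, sub_self]), mul_zero,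
      Polynomial.eval_pow, Polynomial.eval_add, Polynomial.eval_mul, Polynomial.eval_X,
      Polynomial.eval_C, Polynomial.eval_natCast] at h2
    have h3 := pow_eq_zero_iff (by omega : n ≠ 0) |>.mp h2.symm
    exact eq_neg_of_add_eq_zero_left h3
  apply hprod x hx2
  have h1 := (hroot i0).trans (hroot i1).symm
  refine mul_left_cancel₀ ?_ h1
  exact Nat.cast_ne_zero.2 (by omega)

end REC
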